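import Mathlib
import Pool.Agent.Q77.LU.StmK
import Pool.Agent.Q77.LU.Base
import Pool.Agent.Q176.LU.KEY
import Pool.Agent.Q66.LU.PULL

/-!
# Project LU (helper77), job GKEY: the main lower bound on all gauge invariant functions
-/

set_option autoImplicit false

namespace Pool.Agent.Q177.LU.GKEY

open Pool.Agent.Q77.LU
open MeasureTheory Matrix Set Filter Topology
open scoped ContDiff Matrix.Norms.Frobenius

set_option linter.unusedSectionVars false

noncomputable section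

variable {N n D l : ℕ} {G : Subgroup (UU N)}

/-- the centre transformation of an element of `center ^ D` -/
def ct (z : Fin D → Subgroup.center G) (U : Link D l → G) : Link D l → G :=
  centre (fun i => (z i : G)) U

lemma ct_mul (z w : Fin D → Subgroup.center G) (U : Link D l → G) :
    ct z (ct w U) = ct (z * w) U := by
  funext e
  unfold ct centre
  by_cases h : e.1 e.2 = -1
  · simp only [if_pos h, Pi.mul_apply, Subgroup.coe_mul, mul_assoc]
  · simp only [if_neg h]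

lemma ct_one (U : Link D l → G) : ct 1 U = U := by
  funext e
  unfold ct centre
  by_cases h : e.1 e.2 = -1
  · simp only [if_pos h, Pi.one_apply, Subgroup.coe_one, one_mul]
  · simp only [if_neg h]

lemma ct_gauge (z : Fin D → Subgroup.center G) (γ : (Fin D → ZMod l) → G) (U : Link D l → G) :
    ct z (gauge γ U) = gauge γ (ct z U) := by
  funext e
  unfold ct centre Pool.Agent.Q77.LU.gauge
  by_cases h : e.1 e.2 = -1
  · simp only [if_pos h]
    have h1 : ∀ g : G, g * (z e.2 : G) = (z e.2 : G) * g := fun g =>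
      Subgroup.mem_center_iff.1 (z e.2).2 g
    rw [← mul_assoc, ← mul_assoc, ← h1 (γ e.1), mul_assoc (γ e.1)]
  · simp only [if_neg h]

lemma ct_cont (z : Fin D → Subgroup.center G) :
    Continuous (ct z : (Link D l → G) → (Link D l → G)) := by
  refine continuous_pi fun e => ?_
  unfold ct centre
  by_cases h : e.1 e.2 = -1
  · simp only [if_pos h]
    exact continuous_const.mul (continuous_apply e)
  · simp only [if_neg h]
    exact continuous_apply e

lemma gauge_gauge (γ γ' : (Fin D → ZMod l) → G) (U : Link D l → G) :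
    gauge γ (gauge γ' U) = gauge (fun x => γ x * γ' x) U := by
  funext e
  unfold Pool.Agent.Q77.LU.gauge
  rw [_root_.mul_inv_rev]
  group

lemma gauge_one (U : Link D l → G) : gauge (fun _ => 1) U = U := by
  funext e
  unfold Pool.Agent.Q77.LU.gauge
  simp

section

variable [NeZero l]

lemma ct_smooth (z : Fin D → Subgroup.center G) {F : (Link D l → G) → ℝ} (hF : IsSmooth F) :
    IsSmooth (fun U => F (ct z U)) := by
  obtain ⟨f, hf, h⟩ := hF
  refine ⟨fun M => f (fun e => if e.1 e.2 = -1 then mt ((z e.2 : G)) * M e else M e), ?_, ?_⟩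
  · refine hf.comp (contDiff_pi.2 fun e => ?_)
    by_cases h1 : e.1 e.2 = -1
    · simp only [if_pos h1]
      exact contDiff_const.mul (contDiff_apply ℝ (Mt N) e)
    · simp only [if_neg h1]
      exact contDiff_apply ℝ (Mt N) e
  · intro U
    change F (ct z U) = _
    rw [h]
    congr 1
    funext e
    unfold ct centre
    by_cases h1 : e.1 e.2 = -1
    · simp only [if_pos h1]
      rfl
    · simp only [if_neg h1]

lemma ct_dlink (B : LieBasis G n) (z : Fin D → Subgroup.center G) (F : (Link D l → G) → ℝ)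
    (e : Link D l) (a : Fin n) (U : Link D l → G) :
    dlink B e a (fun U => F (ct z U)) U = dlink B e a F (ct z U) := by
  unfold dlink ct
  simp only [Pool.Agent.Q66.LU.centre_update (fun i => (z i : G)) (fun i => (z i).2)]

lemma ct_magnetic (z : Fin D → Subgroup.center G) (U : Link D l → G) :
    magnetic (ct z U) = magnetic U :=
  Pool.Agent.Q66.LU.magnetic_centre (fun i => (z i : G)) (fun i => (z i).2) U

variable {B : LieBasis G n} (dc : Dec B D l)

lemma ct_orb (z : Fin D → Subgroup.center G) {ρ : ℝ} {U : Link D l → G} (h : Orb dc ρ (ct z U)) :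
    Orb dc ρ U := by
  obtain ⟨γ, w, x, hw, hx, he⟩ := h
  have h1 : U = ct z⁻¹ (ct z U) := by rw [ct_mul, inv_mul_cancel, ct_one]
  obtain ⟨w', hw'⟩ : ∃ w' : Fin D → Subgroup.center G, w = fun i => (w' i : G) :=
    ⟨fun i => ⟨w i, hw i⟩, rfl⟩
  subst hw'
  have h2 : ct z U = gauge γ (ct w' (dc.ch x)) := he
  refine ⟨γ, fun i => ((z⁻¹ * w') i : G), x, fun i => ((z⁻¹ * w') i).2, hx, ?_⟩
  rw [h1, h2, ct_gauge, ct_mul]
  rfl

/-- the measure is invariant -/
lemma ct_mp [MeasurableSpace G] [BorelSpace G] (μ : Measure G) [IsProbabilityMeasure μ]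
    [μ.IsHaarMeasure] (z : Fin D → Subgroup.center G) :
    MeasurePreserving (ct z : (Link D l → G) → (Link D l → G))
      (Measure.pi fun _ : Link D l => μ) (Measure.pi fun _ : Link D l => μ) := by
  have h1 : (ct z : (Link D l → G) → (Link D l → G)) =
      fun U e => (fun g : G => if e.1 e.2 = -1 then (z e.2 : G) * g else g) (U e) := rfl
  rw [h1]
  refine measurePreserving_pi (fun _ : Link D l => μ) (fun _ : Link D l => μ)
    (f := fun (e : Link D l) (g : G) => if e.1 e.2 = -1 then (z e.2 : G) * g else g) fun e => ?_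
  by_cases h : e.1 e.2 = -1
  · simp only [if_pos h]
    exact measurePreserving_mul_left μ _
  · simp only [if_neg h]
    exact MeasurePreserving.id μ

lemma ct_int (hG : IsClosed (G : Set (UU N))) [MeasurableSpace G] [BorelSpace G] (μ : Measure G)
    [IsProbabilityMeasure μ] [μ.IsHaarMeasure] (z : Fin D → Subgroup.center G)
    {Φ : (Link D l → G) → ℝ} (hΦ : Continuous Φ) :
    ∫ U, Φ (ct z U) ∂(Measure.pi fun _ : Link D l => μ) =
      ∫ U, Φ U ∂(Measure.pi fun _ : Link D l => μ) := by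
  have := compactG hG
  have := sctG (G := G)
  have h1 := ct_mp μ z (l := l)
  have h2 : AEStronglyMeasurable Φ (Measure.map (ct z) (Measure.pi fun _ : Link D l => μ)) :=
    hΦ.aestronglyMeasurable
  have h3 := integral_map h1.measurable.aemeasurable h2
  rw [h1.map_eq] at h3
  exact h3.symm

/-! ### the wells -/

/-- the data of the wells -/
structure Well (ρ ρ2 ρ1 r : ℝ) (κ : (Link D l → G) → ℝ) : Prop where
  pos : 0 < ρ
  lt2 : ρ < ρ2
  lt1 : ρ2 < ρ1
  ltr : ρ1 < r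
  sm : IsSmooth κ
  gi : GaugeInv κ
  one : ∀ x, nx x < ρ2 ^ 2 → κ (dc.ch x) = 1
  supp : ∀ U, κ U ≠ 0 → Orb1 dc ρ1 U
  uniq : ∀ (γ : (Fin D → ZMod l) → G) (z : Fin D → G)
    (x y : (Fin D × Fin n → ℝ) × (Fin dc.M → ℝ)), (∀ i, z i ∈ Subgroup.center G) →
    nx x < r ^ 2 → nx y < r ^ 2 → dc.ch x = gauge γ (centre z (dc.ch y)) →
    (∀ i, z i = 1) ∧ x = dc.sg (γ 0) y
  op : IsOpen {U : Link D l → G | Orb dc ρ2 U}

variable {dc} {ρ ρ2 ρ1 r : ℝ} {κ : (Link D l → G) → ℝ}

/-- the selector of a well -/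
lemma Well.sel (hW : Well dc ρ ρ2 ρ1 r κ) (γ : (Fin D → ZMod l) → G)
    (w : Fin D → Subgroup.center G) (x : (Fin D × Fin n → ℝ) × (Fin dc.M → ℝ))
    (hx : nx x < ρ2 ^ 2) (z : Fin D → Subgroup.center G) :
    (z * w = 1 → κ (ct z (gauge γ (ct w (dc.ch x)))) = 1) ∧
      (z * w ≠ 1 → κ (ct z (gauge γ (ct w (dc.ch x)))) = 0) := by
  have h1 : κ (ct z (gauge γ (ct w (dc.ch x)))) = κ (ct (z * w) (dc.ch x)) := by
    rw [ct_gauge, hW.gi, ct_mul]
  rw [h1]
  constructor
  · intro h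
    rw [h, ct_one, hW.one x hx]
  · intro h
    by_contra hne
    obtain ⟨γ', y, hy, he⟩ := hW.supp _ hne
    have h0 := hW.pos
    have h2 := hW.lt2
    have h3 := hW.lt1
    have h4 := hW.ltr
    have hy' : nx y < r ^ 2 := hy.trans (by nlinarith)
    have hx' : nx x < r ^ 2 := hx.trans (by nlinarith)
    have h5 : dc.ch y = gauge (fun u => (γ' u)⁻¹) (centre (fun i => ((z * w) i : G)) (dc.ch x)) := by
      have h6 : centre (fun i => ((z * w) i : G)) (dc.ch x) = gauge γ' (dc.ch y) := he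
      rw [h6, gauge_gauge]
      simp only [inv_mul_cancel]
      rw [gauge_one]
    have h7 := (hW.uniq _ _ y x (fun i => ((z * w) i).2) hy' hx' h5).1
    apply h
    funext i
    exact Subtype.ext (h7 i)

variable [Fintype (Subgroup.center G)]

/-- the averaged function -/
def Hz (κ F1 : (Link D l → G) → ℝ) (z : Fin D → Subgroup.center G) (U : Link D l → G) : ℝ :=
  ∑ w : Fin D → Subgroup.center G, κ (ct w U) * F1 (ct z (ct w U))

lemma Hz_smooth {F1 : (Link D l → G) → ℝ} (hκ : IsSmooth κ) (hF : IsSmooth F1)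
    (z : Fin D → Subgroup.center G) : IsSmooth (Hz κ F1 z) := by
  unfold Hz
  refine IsSmooth.sum _ fun w _ => ?_
  exact (ct_smooth w hκ).mul (ct_smooth w (ct_smooth z hF))

lemma Hz_gauge {F1 : (Link D l → G) → ℝ} (hκ : GaugeInv κ) (hF : GaugeInv F1)
    (z : Fin D → Subgroup.center G) : GaugeInv (Hz κ F1 z) := by
  intro γ U
  unfold Hz
  refine Finset.sum_congr rfl fun w _ => ?_
  rw [ct_gauge, hκ, ct_gauge, hF]

lemma Hz_centre {F1 : (Link D l → G) → ℝ} (z : Fin D → Subgroup.center G) :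
    CentreInv (Hz κ F1 z) := by
  intro v hv U
  obtain ⟨v', hv'⟩ : ∃ v' : Fin D → Subgroup.center G, v = fun i => (v' i : G) :=
    ⟨fun i => ⟨v i, hv i⟩, rfl⟩
  subst hv'
  change Hz κ F1 z (ct v' U) = Hz κ F1 z U
  unfold Hz
  refine Fintype.sum_equiv (Equiv.mulRight v') _ _ fun w => ?_
  rw [ct_mul w v' U, Equiv.coe_mulRight]

lemma Hz_supp {F1 : (Link D l → G) → ℝ} (hF : ∀ U, F1 U ≠ 0 → Orb dc ρ U)
    (z : Fin D → Subgroup.center G) (U : Link D l → G) (h : Hz κ F1 z U ≠ 0) : Orb dc ρ U := by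
  unfold Hz at h
  obtain ⟨w, -, hw⟩ := Finset.exists_ne_zero_of_sum_ne_zero h
  exact ct_orb dc w (ct_orb dc z (hF _ (right_ne_zero_of_mul hw)))

/-- the averaged function near a well -/
lemma Hz_eq (hW : Well dc ρ ρ2 ρ1 r κ) (F1 : (Link D l → G) → ℝ) (γ : (Fin D → ZMod l) → G)
    (w : Fin D → Subgroup.center G) (x : (Fin D × Fin n → ℝ) × (Fin dc.M → ℝ))
    (hx : nx x < ρ2 ^ 2) (z : Fin D → Subgroup.center G) :
    Hz κ F1 z (gauge γ (ct w (dc.ch x))) = F1 (ct (z * w⁻¹) (gauge γ (ct w (dc.ch x)))) := by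
  classical
  unfold Hz
  rw [Finset.sum_eq_single w⁻¹]
  · rw [(hW.sel γ w x hx w⁻¹).1 (inv_mul_cancel w), one_mul, ct_mul]
  · intro v _ hv
    rw [(hW.sel γ w x hx v).2 (fun h => hv (eq_inv_of_mul_eq_one_left h)), zero_mul]
  · intro h
    exact absurd (Finset.mem_univ _) h

/-- the well is locally constant -/
lemma Hz_near (hW : Well dc ρ ρ2 ρ1 r κ) (F1 : (Link D l → G) → ℝ) {U : Link D l → G}
    (hU : Orb dc ρ2 U) : ∃ w : Fin D → Subgroup.center G, ∀ᶠ V in 𝓝 U,
      ∀ z, Hz κ F1 z V = F1 (ct (z * w) V) := by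
  obtain ⟨γ, v, x, hv, hx, he⟩ := hU
  obtain ⟨w, hw⟩ : ∃ w : Fin D → Subgroup.center G, v = fun i => (w i : G) :=
    ⟨fun i => ⟨v i, hv i⟩, rfl⟩
  subst hw
  have he' : U = gauge γ (ct w (dc.ch x)) := he
  have h1 : κ (ct w⁻¹ U) = 1 := by
    rw [he']
    exact (hW.sel γ w x hx w⁻¹).1 (inv_mul_cancel w)
  have h2 : Continuous fun V : Link D l → G => κ (ct w⁻¹ V) :=
    hW.sm.continuous.comp (ct_cont w⁻¹)
  have h3 : ∀ᶠ V in 𝓝 U, κ (ct w⁻¹ V) ≠ 0 := by
    refine h2.continuousAt.eventually_ne ?_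
    change κ (ct w⁻¹ U) ≠ 0
    rw [h1]
    exact one_ne_zero
  have h4 : ∀ᶠ V in 𝓝 U, Orb dc ρ2 V := hW.op.mem_nhds ⟨γ, _, x, hv, hx, he⟩
  refine ⟨w⁻¹, ?_⟩
  filter_upwards [h3, h4] with V h5 h6 z
  obtain ⟨γ', v', y, hv', hy, he2⟩ := h6
  obtain ⟨w', hw'⟩ : ∃ w' : Fin D → Subgroup.center G, v' = fun i => (w' i : G) :=
    ⟨fun i => ⟨v' i, hv' i⟩, rfl⟩
  subst hw'
  have he2' : V = gauge γ' (ct w' (dc.ch y)) := he2
  have h7 : w⁻¹ * w' = 1 := by
    by_contra hne
    apply h5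
    rw [he2']
    exact (hW.sel γ' w' y hy w⁻¹).2 hne
  have h8 : w' = w := (inv_mul_eq_one.1 h7).symm
  rw [he2', h8] at *
  exact Hz_eq hW F1 γ' w y hy z

end

section main

variable [NeZero l] {B : LieBasis G n} {dc : Dec B D l} {ρ ρ2 ρ1 r : ℝ}
  {κ : (Link D l → G) → ℝ} [Fintype (Subgroup.center G)]

/-- sums over the wells -/
lemma sum_well (hG : IsClosed (G : Set (UU N)))
    (hs : ContDiff ℝ ∞ (fun x (e : Link D l) => mt (dc.ch x e))) (hW : Well dc ρ ρ2 ρ1 r κ)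
    {F1 : (Link D l → G) → ℝ} (hF : ∀ U, F1 U ≠ 0 → Orb dc ρ U) (U : Link D l → G) :
    (∑ z, Hz κ F1 z U ^ 2 = ∑ z, F1 (ct z U) ^ 2) ∧
    ∀ (e : Link D l) (a : Fin n), ∑ z, dlink B e a (Hz κ F1 z) U ^ 2 =
      ∑ z, dlink B e a F1 (ct z U) ^ 2 := by
  classical
  by_cases hU : Orb dc ρ2 U
  · obtain ⟨w, hw⟩ := Hz_near hW F1 hU
    have h0 := hw.self_of_nhds
    refine ⟨?_, fun e a => ?_⟩
    · simp only [h0]
      exact Fintype.sum_equiv (Equiv.mulRight w) _ _ fun z => rfl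
    · have h1 : ∀ z, dlink B e a (Hz κ F1 z) U = dlink B e a F1 (ct (z * w) U) := by
        intro z
        rw [← ct_dlink]
        have h2 : Tendsto (fun t : ℝ => Function.update U e (B.ex a t * U e)) (𝓝 0) (𝓝 U) := by
          have h4 : Continuous fun t : ℝ => Function.update U e (B.ex a t * U e) := by
            have h5 : Continuous (B.ex a) := by
              refine continuous_induced_rng.2 (continuous_induced_rng.2 ?_)
              have h6 : (fun t => ((B.ex a t : UU N) : Mt N)) = fun t : ℝ =>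
                  NormedSpace.exp (t • B.X a) := by
                funext t; exact B.ex_eq a t
              show Continuous (fun t => ((B.ex a t : UU N) : Mt N))
              rw [h6]
              exact NormedSpace.exp_continuous.comp (continuous_id.smul continuous_const)
            exact continuous_const.update e (h5.mul continuous_const)
          have h7 := h4.tendsto 0
          rw [update_zero B e a U] at h7
          exact h7
        have h3 : (fun t => Hz κ F1 z (Function.update U e (B.ex a t * U e))) =ᶠ[𝓝 0]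
            fun t => F1 (ct (z * w) (Function.update U e (B.ex a t * U e))) :=
          (h2.eventually hw).mono fun t ht => ht z
        unfold dlink
        exact h3.deriv_eq
      simp only [h1]
      exact Fintype.sum_equiv (Equiv.mulRight w) _ _ fun z => rfl
  · have h1 : ∀ z V, F1 (ct z V) ≠ 0 → Orb dc ρ V := fun z V h => ct_orb dc z (hF _ h)
    have h2 : ∀ z V, Hz κ F1 z V ≠ 0 → Orb dc ρ V := fun z V h => Hz_supp hF z V h
    have h3 : ∀ Φ : (Link D l → G) → ℝ, (∀ V, Φ V ≠ 0 → Orb dc ρ V) →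
        U ∉ closure {V | Φ V ≠ 0} := fun Φ hΦ h =>
      hU (Pool.Agent.Q66.LU.closure_orb dc hG hs hW.pos hW.lt2 hΦ h)
    have h4 : ∀ Φ : (Link D l → G) → ℝ, (∀ V, Φ V ≠ 0 → Orb dc ρ V) → Φ U = 0 := by
      intro Φ hΦ
      by_contra h
      exact h3 Φ hΦ (subset_closure h)
    refine ⟨?_, fun e a => ?_⟩
    · rw [Finset.sum_eq_zero fun z _ => ?_, Finset.sum_eq_zero fun z _ => ?_]
      · rw [h4 (fun V => F1 (ct z V)) (h1 z)]; norm_num
      · rw [h4 (Hz κ F1 z) (h2 z)]; norm_num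
    · rw [Finset.sum_eq_zero fun z _ => ?_, Finset.sum_eq_zero fun z _ => ?_]
      · rw [← ct_dlink, Pool.Agent.Q66.LU.dlink_zero (B := B) e a (h3 _ (h1 z))]; norm_num
      · rw [Pool.Agent.Q66.LU.dlink_zero (B := B) e a (h3 _ (h2 z))]; norm_num

variable [MeasurableSpace G] [BorelSpace G] (μ : Measure G) [IsProbabilityMeasure μ]
  [μ.IsHaarMeasure]

/-- the integrals over the wells -/
lemma int_well (hG : IsClosed (G : Set (UU N)))
    (hs : ContDiff ℝ ∞ (fun x (e : Link D l) => mt (dc.ch x e))) (hW : Well dc ρ ρ2 ρ1 r κ)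
    {F1 : (Link D l → G) → ℝ} (hsm : IsSmooth F1) (hF : ∀ U, F1 U ≠ 0 → Orb dc ρ U) (g : ℝ) :
    (∑ z, ∫ U, Hz κ F1 z U ^ 2 ∂(Measure.pi fun _ : Link D l => μ) =
      (Fintype.card (Fin D → Subgroup.center G) : ℝ) *
        ∫ U, F1 U ^ 2 ∂(Measure.pi fun _ : Link D l => μ)) ∧
    ∑ z, energy B μ g (Hz κ F1 z) =
      (Fintype.card (Fin D → Subgroup.center G) : ℝ) * energy B μ g F1 := by
  classical
  have hH : ∀ z, IsSmooth (Hz κ F1 z) := fun z => Hz_smooth hW.sm hsm z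
  have e1 : ∑ z, ∫ U, Hz κ F1 z U ^ 2 ∂(Measure.pi fun _ : Link D l => μ) =
      (Fintype.card (Fin D → Subgroup.center G) : ℝ) *
        ∫ U, F1 U ^ 2 ∂(Measure.pi fun _ : Link D l => μ) := by
    have k1 : ∑ z, ∫ U, Hz κ F1 z U ^ 2 ∂(Measure.pi fun _ : Link D l => μ) =
        ∫ U, ∑ z, Hz κ F1 z U ^ 2 ∂(Measure.pi fun _ : Link D l => μ) :=
      (integral_finset_sum _ fun z _ => integrable_links μ hG ((hH z).continuous.pow 2)).symm
    have k2 : ∫ U, ∑ z, F1 (ct z U) ^ 2 ∂(Measure.pi fun _ : Link D l => μ) =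
        ∑ z, ∫ U, F1 (ct z U) ^ 2 ∂(Measure.pi fun _ : Link D l => μ) :=
      integral_finset_sum _ fun z _ =>
        integrable_links μ hG ((hsm.continuous.comp (ct_cont z)).pow 2)
    rw [k1]
    simp only [(sum_well hG hs hW hF _).1]
    rw [k2, Finset.sum_congr rfl fun z _ =>
      ct_int hG μ z (Φ := fun U => F1 U ^ 2) (hsm.continuous.pow 2)]
    rw [Finset.sum_const, nsmul_eq_mul, Finset.card_univ]
  have e2 : ∀ (e : Link D l) (a : Fin n),
      ∑ z, ∫ U, dlink B e a (Hz κ F1 z) U ^ 2 ∂(Measure.pi fun _ : Link D l => μ) =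
      (Fintype.card (Fin D → Subgroup.center G) : ℝ) *
        ∫ U, dlink B e a F1 U ^ 2 ∂(Measure.pi fun _ : Link D l => μ) := by
    intro e a
    have hd := (hsm.dlink B e a).continuous
    have k1 : ∑ z, ∫ U, dlink B e a (Hz κ F1 z) U ^ 2 ∂(Measure.pi fun _ : Link D l => μ) =
        ∫ U, ∑ z, dlink B e a (Hz κ F1 z) U ^ 2 ∂(Measure.pi fun _ : Link D l => μ) :=
      (integral_finset_sum _ fun z _ =>
        integrable_links μ hG (((hH z).dlink B e a).continuous.pow 2)).symm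
    have k2 : ∫ U, ∑ z, dlink B e a F1 (ct z U) ^ 2 ∂(Measure.pi fun _ : Link D l => μ) =
        ∑ z, ∫ U, dlink B e a F1 (ct z U) ^ 2 ∂(Measure.pi fun _ : Link D l => μ) :=
      integral_finset_sum _ fun z _ => integrable_links μ hG ((hd.comp (ct_cont z)).pow 2)
    rw [k1]
    simp only [(sum_well hG hs hW hF _).2 e a]
    rw [k2, Finset.sum_congr rfl fun z _ =>
      ct_int hG μ z (Φ := fun U => dlink B e a F1 U ^ 2) (hd.pow 2)]
    rw [Finset.sum_const, nsmul_eq_mul, Finset.card_univ]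
  have hmc : Continuous fun U : Link D l → G => magnetic U := (smooth_magnetic B).continuous
  have e3 : ∑ z, ∫ U, magnetic U * Hz κ F1 z U ^ 2 ∂(Measure.pi fun _ : Link D l => μ) =
      (Fintype.card (Fin D → Subgroup.center G) : ℝ) *
        ∫ U, magnetic U * F1 U ^ 2 ∂(Measure.pi fun _ : Link D l => μ) := by
    have k1 : ∑ z, ∫ U, magnetic U * Hz κ F1 z U ^ 2 ∂(Measure.pi fun _ : Link D l => μ) =
        ∫ U, ∑ z, magnetic U * Hz κ F1 z U ^ 2 ∂(Measure.pi fun _ : Link D l => μ) :=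
      (integral_finset_sum _ fun z _ =>
        integrable_links μ hG (hmc.mul ((hH z).continuous.pow 2))).symm
    have k2 : ∫ U, ∑ z, magnetic (ct z U) * F1 (ct z U) ^ 2
          ∂(Measure.pi fun _ : Link D l => μ) =
        ∑ z, ∫ U, magnetic (ct z U) * F1 (ct z U) ^ 2 ∂(Measure.pi fun _ : Link D l => μ) :=
      integral_finset_sum _ fun z _ => integrable_links μ hG
        ((hmc.comp (ct_cont z)).mul ((hsm.continuous.comp (ct_cont z)).pow 2))
    rw [k1]
    have h1 : ∀ U : Link D l → G, ∑ z, magnetic U * Hz κ F1 z U ^ 2 =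
        ∑ z, magnetic (ct z U) * F1 (ct z U) ^ 2 := by
      intro U
      rw [← Finset.mul_sum, (sum_well hG hs hW hF U).1, Finset.mul_sum]
      exact Finset.sum_congr rfl fun z _ => by rw [ct_magnetic]
    simp only [h1]
    rw [k2, Finset.sum_congr rfl fun z _ =>
      ct_int hG μ z (Φ := fun U => magnetic U * F1 U ^ 2) (hmc.mul (hsm.continuous.pow 2))]
    rw [Finset.sum_const, nsmul_eq_mul, Finset.card_univ]
  refine ⟨e1, ?_⟩
  unfold energy
  rw [Finset.sum_add_distrib, ← Finset.mul_sum, ← Finset.mul_sum, e3, Finset.sum_comm]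
  have h2 : ∑ e : Link D l, ∑ z : Fin D → Subgroup.center G, ∑ a : Fin n,
      ∫ U, dlink B e a (Hz κ F1 z) U ^ 2 ∂(Measure.pi fun _ : Link D l => μ) =
      (Fintype.card (Fin D → Subgroup.center G) : ℝ) * ∑ e : Link D l, ∑ a : Fin n,
        ∫ U, dlink B e a F1 U ^ 2 ∂(Measure.pi fun _ : Link D l => μ) := by
    rw [Finset.mul_sum]
    refine Finset.sum_congr rfl fun e _ => ?_
    rw [Finset.sum_comm, Finset.mul_sum]
    exact Finset.sum_congr rfl fun a _ => e2 e a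
  rw [h2]
  ring

/-- the pull back of the averaged function -/
lemma pull_well {L : Loc (Fin D × Fin n) (Fin dc.M)} (hL : Chart μ dc L)
    (hW : Well dc ρ ρ2 ρ1 r κ) (hρr : ρ < L.r)
    {F1 : (Link D l → G) → ℝ} (hF : ∀ U, F1 U ≠ 0 → Orb dc ρ U)
    (z : Fin D → Subgroup.center G) :
    dc.pull L.r (Hz κ F1 z) = dc.pull L.r (fun U => F1 (ct z U)) := by
  funext x
  unfold Dec.pull
  by_cases hx : nx x < L.r ^ 2
  · rw [if_pos hx, if_pos hx]
    by_cases hx2 : nx x < ρ2 ^ 2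
    · have h1 := Hz_eq hW F1 (fun _ => 1) 1 x hx2 z
      rw [gauge_one, ct_one, inv_one, mul_one] at h1
      exact h1
    · have h1 : ¬ Orb dc ρ (dc.ch x) := by
        intro h
        have h2 := hL.uniq x ρ hx hW.pos hρr.le h
        have h3 := hW.pos
        have h4 := hW.lt2
        exact hx2 (h2.trans (by nlinarith))
      have h2 : Hz κ F1 z (dc.ch x) = 0 := by
        by_contra hne
        exact h1 (Hz_supp hF z _ hne)
      have h3 : F1 (ct z (dc.ch x)) = 0 := by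
        by_contra hne
        exact h1 (ct_orb dc z (hF _ hne))
      rw [h2]
      exact h3.symm
  · rw [if_neg hx, if_neg hx]

end main

/-- the bump -/
def bump {P Q : Type} [Fintype P] [Fintype Q] (s t : ℝ) (x : (P → ℝ) × (Q → ℝ)) : ℝ :=
  Real.smoothTransition ((t - nx x) / (t - s))

lemma nx_sm {P Q : Type} [Fintype P] [Fintype Q] :
    ContDiff ℝ ∞ (nx : (P → ℝ) × (Q → ℝ) → ℝ) := by
  unfold nx n2
  fun_prop

lemma bump_sm {P Q : Type} [Fintype P] [Fintype Q] (s t : ℝ) :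
    ContDiff ℝ ∞ (bump s t : (P → ℝ) × (Q → ℝ) → ℝ) := by
  unfold bump
  exact Real.smoothTransition.contDiff.comp ((contDiff_const.sub nx_sm).div_const _)

lemma bump_one {P Q : Type} [Fintype P] [Fintype Q] {s t : ℝ} (hst : s < t)
    {x : (P → ℝ) × (Q → ℝ)} (hx : nx x < s) : bump s t x = 1 := by
  unfold bump
  refine Real.smoothTransition.one_of_one_le ?_
  rw [one_le_div (by linarith)]
  linarith

lemma bump_supp {P Q : Type} [Fintype P] [Fintype Q] {s t : ℝ} (hst : s < t)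
    {x : (P → ℝ) × (Q → ℝ)} (hx : bump s t x ≠ 0) : nx x < t := by
  by_contra h
  push Not at h
  apply hx
  unfold bump
  refine Real.smoothTransition.zero_of_nonpos ?_
  exact div_nonpos_of_nonpos_of_nonneg (by linarith) (by linarith)

lemma g2_smul {P : Type} [Fintype P] [DecidableEq P] (c : ℝ) {f : (P → ℝ) → ℝ}
    (hf : ContDiff ℝ ∞ f) (C : P → ℝ) : g2 (fun C => c * f C) C = c ^ 2 * g2 f C := by
  unfold g2
  rw [Finset.mul_sum]
  refine Finset.sum_congr rfl fun i _ => ?_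
  unfold pd
  have hd : DifferentiableAt ℝ f C := (hf.differentiable (by simp)).differentiableAt
  rw [fderiv_const_mul hd, ContinuousLinearMap.smul_apply, smul_eq_mul]
  ring

theorem t_GKEY (h0 : S_LIFT1) (h1 : S_LLB) (h2 : S_TSM) (h3 : S_TINV) (h4 : S_PULL) (h5 : S_IMS)
    (h6 : S_AWAY) (h7 : S_TAUO) (h8 : S_HC) (h9 : S_SYMM) (h10 : S_UNIQ) : S_GKEY := by
  classical
  intro N n D l _ G hG hconn B _ _ μ _ _ hfin hnc hD dc L hch ε hε
  obtain ⟨δ1, K1, η1, hδ1, hK1, hη1, hLLB⟩ := h1 (Fin D × Fin n) (Fin dc.M) L ε hε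
  obtain ⟨r1, hr1, hlift⟩ := h0 N n D l G hG B hnc dc
  obtain ⟨r2, hr2, huniq, hopen⟩ := h10 N n D l G hG B hnc dc
  have hLr := L.rpos
  obtain ⟨r, hre⟩ : ∃ r, r = min r1 r2 := ⟨_, rfl⟩
  have hr : 0 < r := by rw [hre]; exact lt_min hr1 hr2
  have hrr1 : r ≤ r1 := by rw [hre]; exact min_le_left _ _
  have hrr2 : r ≤ r2 := by rw [hre]; exact min_le_right _ _
  obtain ⟨ρ, hρe⟩ : ∃ ρ, ρ = min (min δ1 (L.r / 2)) (r / 8) := ⟨_, rfl⟩
  have hρ : 0 < ρ := by
    rw [hρe]; exact lt_min (lt_min hδ1 (half_pos hLr)) (by positivity)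
  have hρ1 : ρ ≤ δ1 := by rw [hρe]; exact (min_le_left _ _).trans (min_le_left _ _)
  have hρr : ρ < L.r := by
    rw [hρe]
    exact lt_of_le_of_lt ((min_le_left _ _).trans (min_le_right _ _)) (half_lt_self hLr)
  have hρ8 : ρ ≤ r / 8 := by rw [hρe]; exact min_le_right _ _
  have hsymm := fun h x => h9 N n D l G hG B dc h x
  have hs : ContDiff ℝ ∞ (fun x (e : Link D l) => mt (dc.ch x e)) :=
    (hsymm 1 0).2.2.2.2.2.2.2.2
  -- the selector of the wells
  have hst : (r / 4) ^ 2 < (r / 2) ^ 2 := by nlinarith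
  obtain ⟨κ, hκ1, hκ2, hκ3, hκ4⟩ := hlift (r / 2) (by positivity) (by linarith)
    (bump ((r / 4) ^ 2) ((r / 2) ^ 2)) (bump_sm _ _) (fun x hx => bump_supp hst hx)
    (fun h x => by
      unfold bump
      have e1 : nx (dc.sg h x) = nx x := by
        unfold nx
        rw [(hsymm h x).2.1, (hsymm h x).2.2.1]
      rw [e1])
  have hW : Well dc ρ (r / 4) (r / 2) r κ := by
    refine ⟨hρ, by linarith, by linarith, by linarith, hκ1, hκ2, ?_, hκ4, ?_, ?_⟩
    · intro x hx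
      rw [hκ3 x (hx.trans (by nlinarith))]
      exact bump_one hst hx
    · intro γ z x y hz hx hy he
      exact huniq γ z x y hz (hx.trans_le (pow_le_pow_left₀ hr.le hrr2 2))
        (hy.trans_le (pow_le_pow_left₀ hr.le hrr2 2)) he
    · exact hopen (r / 4) (by positivity) (by linarith)
  obtain ⟨δ, hδ, hτ⟩ := h7 N n D l G hG hconn B hnc dc ρ hρ
  obtain ⟨hc1, hc2, hc3, hc4, hc5, hc6, hc7, hc8, hc9⟩ := h8 N n D l G hG B
  obtain ⟨hcos, hsin, K2, hK2, hims⟩ := h5 N n D l G hG B μ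
    (fun U => Pool.Agent.Q176.LU.thn δ (tau B U))
    (Pool.Agent.Q176.LU.sm_comp hc4 (Pool.Agent.Q176.LU.thn_sm δ))
  obtain ⟨η2, g2', hη2, hg2, haway⟩ := h6 N n D l G hG hD B μ (δ / 2) (half_pos hδ)
  obtain ⟨χ, hχ⟩ : ∃ χ : (Link D l → G) → ℝ, χ = fun U =>
    Real.cos (Pool.Agent.Q176.LU.thn δ (tau B U)) := ⟨_, rfl⟩
  have hχs : IsSmooth χ := by rw [hχ]; exact hcos
  have hχg : GaugeInv χ := by
    intro γ U
    rw [hχ]
    change Real.cos (Pool.Agent.Q176.LU.thn δ (tau B (gauge γ U))) = _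
    rw [hc5]
  have hχc : ∀ (z : Fin D → Subgroup.center G) (U : Link D l → G), χ (ct z U) = χ U := by
    intro z U
    rw [hχ]
    change Real.cos (Pool.Agent.Q176.LU.thn δ (tau B (centre (fun i => (z i : G)) U))) = _
    rw [hc6 _ (fun i => (z i).2)]
  refine ⟨K1 + K2, min η1 η2, min (min δ1 g2') 1, add_nonneg hK1 hK2, lt_min hη1 hη2,
    lt_min (lt_min hδ1 hg2) one_pos, χ, ?_⟩
  intro g hg hgg F hF hFg t ht
  have hg1 : g ≤ δ1 := (hgg.trans_le ((min_le_left _ _).trans (min_le_left _ _))).le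
  have hg2' : g < g2' := hgg.trans_le ((min_le_left _ _).trans (min_le_right _ _))
  have hg3 : g < 1 := hgg.trans_le (min_le_right _ _)
  obtain ⟨F1, hF1⟩ : ∃ F1 : (Link D l → G) → ℝ, F1 = fun U => χ U * F U := ⟨_, rfl⟩
  have hF1s : IsSmooth F1 := by rw [hF1]; exact hχs.mul hF
  have hF1g : GaugeInv F1 := by
    intro γ U
    rw [hF1]
    change χ (gauge γ U) * F (gauge γ U) = _
    rw [hχg, hFg]
  have hF1o : ∀ U, F1 U ≠ 0 → Orb dc ρ U := by
    intro U hU
    refine hτ U ?_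
    by_contra hlt
    rw [not_lt] at hlt
    apply hU
    rw [hF1, hχ]
    change Real.cos (Pool.Agent.Q176.LU.thn δ (tau B U)) * F U = 0
    rw [Pool.Agent.Q176.LU.thn_large hδ hlt, Real.cos_pi_div_two, zero_mul]
  have hF1c : ∀ z, (fun U => F1 (ct z U)) =
      fun U => χ U * F (centre (fun i => (z i : G)) U) := by
    intro z
    funext U
    rw [hF1]
    change χ (ct z U) * F (ct z U) = _
    rw [hχc]
    rfl
  obtain ⟨f, hf⟩ : ∃ f : (Fin D → Subgroup.center G) →
      ((Fin D × Fin n → ℝ) × (Fin dc.M → ℝ)) → ℝ, f = fun z =>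
        dc.pull L.r (fun U => χ U * F (centre (fun i => (z i : G)) U)) := ⟨_, rfl⟩
  have hfz : ∀ z, dc.pull L.r (fun U => χ U * F (centre (fun i => (z i : G)) U)) = f z := by
    intro z
    rw [hf]
  have hfH : ∀ z, dc.pull L.r (Hz κ F1 z) = f z := by
    intro z
    rw [pull_well μ hch hW hρr hF1o z, hF1c, hfz]
  simp only [hfz] at ht ⊢
  -- the pull backs
  have hp : ∀ z, ContDiff ℝ ∞ (f z) ∧ (∀ x, f z x ≠ 0 → nx x < ρ ^ 2) ∧
      (∀ h x, f z (dc.sg h x) = f z x) ∧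
      ∫ U, Hz κ F1 z U ^ 2 ∂(Measure.pi fun _ : Link D l => μ) = (∫ x, f z x ^ 2 * L.J x) ∧
      (∫ x, (g ^ 2 / 2 * (1 - L.K * nx x) * (gC (f z) x + gA (f z) x) +
        1 / g ^ 2 * L.w x * f z x ^ 2) * L.J x) ≤ energy B μ g (Hz κ F1 z) := by
    intro z
    obtain ⟨p1, p2, p3, p4, p5⟩ := h4 N n D l G hG B μ dc L hch ρ hρ hρr (Hz κ F1 z)
      (Hz_smooth hκ1 hF1s z) (Hz_gauge hκ2 hF1g z) (Hz_centre z) (fun U => Hz_supp hF1o z U)
    rw [hfH] at p1 p2 p3 p4 p5
    exact ⟨p1, p2, p3, p4, (p5 g hg).1⟩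
  have hcs : ∀ z, HasCompactSupport (f z) := fun z =>
    Pool.Agent.Q176.LU.csupp (hp z).2.1
  have hT := fun z => h2 _ _ L g hg (f z) (hp z).1 (hcs z)
  have hLz := fun z => hLLB g hg hg1 (f z) (hp z).1 fun x hx =>
    ((hp z).2.1 x hx).trans_le (pow_le_pow_left₀ hρ.le hρ1 2)
  -- the number of the wells
  obtain ⟨m, hm⟩ : ∃ m : ℝ, m = (Fintype.card (Fin D → Subgroup.center G) : ℝ) := ⟨_, rfl⟩
  have hm0 : 0 < m := by
    rw [hm]
    exact_mod_cast Fintype.card_pos
  have hmD : m = (Fintype.card (Subgroup.center G) : ℝ) ^ D := by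
    rw [hm, Fintype.card_fun, Fintype.card_fin]
    push_cast
    rfl
  obtain ⟨c, hc⟩ : ∃ c : ℝ, c = (Real.sqrt ((Fintype.card (Subgroup.center G) : ℝ) ^ D))⁻¹ :=
    ⟨_, rfl⟩
  have hc2 : c ^ 2 = m⁻¹ := by
    rw [hc, ← hmD, inv_pow, Real.sq_sqrt hm0.le]
  rw [← hc] at ht
  obtain ⟨i1, i2⟩ := int_well (B := B) μ hG hs hW hF1s hF1o g
  rw [← hm] at i1 i2
  have ht2 : ∀ z, ∫ C, t z C ^ 2 = m⁻¹ * ∫ C, L.T g (f z) C ^ 2 := by
    intro z
    rw [← integral_const_mul, ht z]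
    refine integral_congr_ae (Eventually.of_forall fun C => ?_)
    change (c * L.T g (f z) C) ^ 2 = m⁻¹ * L.T g (f z) C ^ 2
    rw [mul_pow, hc2]
  have ht3 : ∀ z, ∫ C, (g ^ 2 / 2 * g2 (t z) C + L.c4 / g ^ 2 * L.v C * t z C ^ 2) =
      m⁻¹ * ∫ C, (g ^ 2 / 2 * g2 (L.T g (f z)) C +
        L.c4 / g ^ 2 * L.v C * L.T g (f z) C ^ 2) := by
    intro z
    rw [← integral_const_mul, ht z]
    refine integral_congr_ae (Eventually.of_forall fun C => ?_)
    change g ^ 2 / 2 * g2 (fun C => c * L.T g (f z) C) C +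
      L.c4 / g ^ 2 * L.v C * (c * L.T g (f z) C) ^ 2 = _
    rw [g2_smul c (hT z).1, mul_pow, hc2]
    ring
  -- the sum of the local bounds
  obtain ⟨A, hA⟩ : ∃ A, A = ∫ U, F1 U ^ 2 ∂(Measure.pi fun _ : Link D l => μ) := ⟨_, rfl⟩
  obtain ⟨Tt, hTt⟩ : ∃ Tt, Tt = ∑ z, ∫ C, t z C ^ 2 := ⟨_, rfl⟩
  obtain ⟨Q, hQ⟩ : ∃ Q, Q = ∑ z, ∫ C, (g ^ 2 / 2 * g2 (t z) C +
    L.c4 / g ^ 2 * L.v C * t z C ^ 2) := ⟨_, rfl⟩
  rw [← hTt, ← hQ]
  rw [← hA] at i1
  have hTt2 : m * Tt = ∑ z, ∫ C, L.T g (f z) C ^ 2 := by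
    rw [hTt, Finset.mul_sum]
    refine Finset.sum_congr rfl fun z _ => ?_
    rw [ht2 z, mul_inv_cancel_left₀ hm0.ne']
  have hQ2 : m * Q = ∑ z, ∫ C, (g ^ 2 / 2 * g2 (L.T g (f z)) C +
      L.c4 / g ^ 2 * L.v C * L.T g (f z) C ^ 2) := by
    rw [hQ, Finset.mul_sum]
    refine Finset.sum_congr rfl fun z _ => ?_
    rw [ht3 z, mul_inv_cancel_left₀ hm0.ne']
  have hTA : Tt ≤ A := by
    have h11 : m * Tt ≤ m * A := by
      rw [hTt2, ← i1]
      refine Finset.sum_le_sum fun z _ => ?_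
      rw [(hp z).2.2.2.1]
      exact (hT z).2.2.2.2
    exact le_of_mul_le_mul_left h11 hm0
  have hE1 : (L.e0 - K1 * g) * A + (1 - ε) * Q + η1 * (A - Tt) ≤ energy B μ g F1 := by
    have h11 : ∑ z, ((L.e0 - K1 * g) *
        (∫ U, Hz κ F1 z U ^ 2 ∂(Measure.pi fun _ : Link D l => μ)) +
        (1 - ε) * (∫ C, (g ^ 2 / 2 * g2 (L.T g (f z)) C +
          L.c4 / g ^ 2 * L.v C * L.T g (f z) C ^ 2)) +
        η1 * ((∫ U, Hz κ F1 z U ^ 2 ∂(Measure.pi fun _ : Link D l => μ)) -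
          ∫ C, L.T g (f z) C ^ 2)) ≤ ∑ z, energy B μ g (Hz κ F1 z) := by
      refine Finset.sum_le_sum fun z _ => ?_
      have h12 := hLz z
      rw [← (hp z).2.2.2.1] at h12
      exact h12.trans (hp z).2.2.2.2
    rw [i2, Finset.sum_add_distrib, Finset.sum_add_distrib, ← Finset.mul_sum, ← Finset.mul_sum,
      ← Finset.mul_sum, Finset.sum_sub_distrib, i1, ← hTt2, ← hQ2] at h11
    have h13 : m * ((L.e0 - K1 * g) * A + (1 - ε) * Q + η1 * (A - Tt)) ≤
        m * energy B μ g F1 := by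
      linarith
    exact le_of_mul_le_mul_left h13 hm0
  -- the region away from the wells
  have e3 := hims g hg F hF
  have e4 := haway g hg hg2' (fun U => Real.sin (Pool.Agent.Q176.LU.thn δ (tau B U)) * F U)
    (hsin.mul hF) (fun U hU => by
      by_contra hlt
      rw [not_le] at hlt
      apply hU
      show Real.sin (Pool.Agent.Q176.LU.thn δ (tau B U)) * F U = 0
      rw [Pool.Agent.Q176.LU.thn_small hδ hlt.le, Real.sin_zero, zero_mul])
  have e0 : 1 / 2 * tsq (hess B (fun _ : Link D l => (1 : G))) = L.e0 := by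
    unfold Loc.e0
    rw [hch.om, dc.sum]
  rw [e0] at e4
  have j1 : ∫ U, F U ^ 2 ∂(Measure.pi fun _ : Link D l => μ) =
      ∫ U, F1 U ^ 2 ∂(Measure.pi fun _ : Link D l => μ) +
      ∫ U, (Real.sin (Pool.Agent.Q176.LU.thn δ (tau B U)) * F U) ^ 2
        ∂(Measure.pi fun _ : Link D l => μ) := by
    rw [← integral_add]
    · refine integral_congr_ae (Eventually.of_forall fun U => ?_)
      rw [hF1, hχ]
      show F U ^ 2 = (Real.cos (Pool.Agent.Q176.LU.thn δ (tau B U)) * F U) ^ 2 +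
        (Real.sin (Pool.Agent.Q176.LU.thn δ (tau B U)) * F U) ^ 2
      have := Real.sin_sq_add_cos_sq (Pool.Agent.Q176.LU.thn δ (tau B U))
      linear_combination (-F U ^ 2) * this
    · exact integrable_links μ hG (hF1s.continuous.pow 2)
    · exact integrable_links μ hG ((hsin.mul hF).continuous.pow 2)
  have j2 : 0 ≤ ∫ U, (Real.sin (Pool.Agent.Q176.LU.thn δ (tau B U)) * F U) ^ 2
      ∂(Measure.pi fun _ : Link D l => μ) := integral_nonneg fun U => sq_nonneg _
  have j3 : 0 ≤ A := by rw [hA]; exact integral_nonneg fun U => sq_nonneg _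
  obtain ⟨M, hM⟩ : ∃ M, M = ∫ U, F U ^ 2 ∂(Measure.pi fun _ : Link D l => μ) := ⟨_, rfl⟩
  obtain ⟨b, hb⟩ : ∃ b, b = ∫ U, (Real.sin (Pool.Agent.Q176.LU.thn δ (tau B U)) * F U) ^ 2
      ∂(Measure.pi fun _ : Link D l => μ) := ⟨_, rfl⟩
  simp only [← hb] at e4
  rw [← hM, ← hA, ← hb] at j1
  rw [← hb] at j2
  have e3' : energy B μ g F1 +
      energy B μ g (fun U => Real.sin (Pool.Agent.Q176.LU.thn δ (tau B U)) * F U) ≤
      energy B μ g F + K2 * g ^ 2 * ∫ U, F U ^ 2 ∂(Measure.pi fun _ : Link D l => μ) := by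
    rw [hF1, hχ]
    exact e3
  rw [← hM] at e3' ⊢
  refine ⟨fun z => ?_, hcs, fun z => (hp z).1.continuous, by linarith, ?_⟩
  · rw [ht z]
    refine ⟨contDiff_const.mul (hT z).1, (hT z).2.1.mul_left, ?_⟩
    rintro σ ⟨h, rfl⟩ x
    have h11 := (h3 _ _ L (adF B h) (Pool.Agent.Q176.LU.tauh dc h)
      (fun t x => Pool.Agent.Q176.LU.adF_smul B h t x) (fun a => by
        exact (h9 N n D l G hG B dc h (0, a)).2.2.1)
      (fun a => by
        rw [hch.om]
        exact (h9 N n D l G hG B dc h (0, a)).2.2.2.1)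
      (fun C a => hch.Jinv h (C, a)) g hg).1 (f z) (fun C a => (hp z).2.2.1 h (C, a)) x
    rw [h11]
  · have k1 : min η1 η2 * (M - Tt) ≤ η1 * (A - Tt) + η2 * b := by
      have k2 : min η1 η2 * (A - Tt) ≤ η1 * (A - Tt) :=
        mul_le_mul_of_nonneg_right (min_le_left _ _) (by linarith)
      have k3 : min η1 η2 * b ≤ η2 * b := mul_le_mul_of_nonneg_right (min_le_right _ _) j2
      rw [j1]
      linarith
    have k4 : K1 * g * A ≤ K1 * g * M :=
      mul_le_mul_of_nonneg_left (by linarith) (mul_nonneg hK1 hg.le)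
    have k5 : K2 * g ^ 2 * M ≤ K2 * g * M := by
      refine mul_le_mul_of_nonneg_right (mul_le_mul_of_nonneg_left ?_ hK2) (by linarith)
      nlinarith
    have k6 : L.e0 * M = L.e0 * A + L.e0 * b := by rw [j1]; ring
    nlinarith [hE1, e3', e4, k1, k4, k5, k6]

end

end Pool.Agent.Q177.LU.GKEY
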