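import Pool.Agent.Q77.LU.StmH

/-!
# Project LU (helper77): jobs SQT, TRP, TSC (traces of square roots)
-/

set_option autoImplicit false

namespace Pool.Agent.Q177.LU

open Matrix Filter Topology Polynomial Finset
open Pool.Agent.Q77.LU (tsq S_SQT S_TRP S_TSC)

variable {ι : Type} [Fintype ι] [DecidableEq ι]

lemma tr_pow {A : Matrix ι ι ℝ} (h : A.IsHermitian) (k : ℕ) :
    trace (A ^ k) = ∑ i, h.eigenvalues i ^ k := by
  have h1 := h.spectral_theorem
  have h2 : A ^ k = Unitary.conjStarAlgAut ℝ _ h.eigenvectorUnitary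
      (diagonal (RCLike.ofReal ∘ h.eigenvalues) ^ k) := by
    rw [map_pow, ← h1]
  rw [h2, Unitary.conjStarAlgAut_apply, trace_mul_comm, ← mul_assoc, Unitary.coe_star_mul_self,
    one_mul, diagonal_pow, trace_diagonal]
  simp

lemma tr_pol {A : Matrix ι ι ℝ} (h : A.IsHermitian) (p : ℝ[X]) :
    trace (aeval A p) = ∑ i, p.eval (h.eigenvalues i) := by
  rw [aeval_eq_sum_range, trace_sum]
  simp_rw [trace_smul, tr_pow h, smul_eq_mul, eval_eq_sum_range, Finset.mul_sum]
  rw [Finset.sum_comm]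

lemma tsq_eq {A : Matrix ι ι ℝ} (h : A.IsHermitian) :
    tsq A = ∑ i, Real.sqrt (h.eigenvalues i) := by
  unfold tsq
  rw [dif_pos h]

lemma eig_le {A : Matrix ι ι ℝ} (h : A.IsHermitian) (c : ℝ)
    (hc : (c • (1 : Matrix ι ι ℝ) - A).PosSemidef) (i : ι) : h.eigenvalues i ≤ c := by
  have h1 := hc.re_dotProduct_nonneg (⇑(h.eigenvectorBasis i) : ι → ℝ)
  have h3 : star (⇑(h.eigenvectorBasis i) : ι → ℝ) ⬝ᵥ (⇑(h.eigenvectorBasis i) : ι → ℝ) = 1 := by
    have h4 := h.eigenvectorBasis.orthonormal.1 i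
    have h5 := EuclideanSpace.real_norm_sq_eq (h.eigenvectorBasis i)
    rw [h4] at h5
    unfold dotProduct
    simp only [star_trivial]
    calc ∑ j, (h.eigenvectorBasis i) j * (h.eigenvectorBasis i) j
        = ∑ j, (h.eigenvectorBasis i) j ^ 2 := Finset.sum_congr rfl fun j _ => by ring
      _ = 1 := by rw [← h5]; norm_num
  rw [sub_mulVec, smul_mulVec, one_mulVec, h.mulVec_eigenvectorBasis, dotProduct_sub,
    dotProduct_smul, dotProduct_smul, h3] at h1
  simp only [smul_eq_mul, mul_one, map_sub, RCLike.re_to_real] at h1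
  linarith

/-! ### the trace of the square root from the traces of the powers -/

theorem t_TRP : S_TRP := by
  classical
  intro ι κ _ _ _ A ν hA hν hk
  have h := hA.1
  rw [tsq_eq h]
  have hpol : ∀ p : ℝ[X], ∑ i, p.eval (h.eigenvalues i) = ∑ i, p.eval (ν i) := by
    intro p
    simp_rw [eval_eq_sum_range]
    rw [Finset.sum_comm, Finset.sum_comm (s := (univ : Finset κ))]
    refine Finset.sum_congr rfl fun j _ => ?_
    rw [← Finset.mul_sum, ← Finset.mul_sum, ← hk j, tr_pow h]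
  let s : Finset ℝ := (univ.image h.eigenvalues) ∪ (univ.image ν)
  let p : ℝ[X] := Lagrange.interpolate s id Real.sqrt
  have hp : ∀ x ∈ s, p.eval x = Real.sqrt x := fun x hx =>
    Lagrange.eval_interpolate_at_node (v := id) Real.sqrt (Function.injective_id.injOn) hx
  have h1 := hpol p
  calc ∑ i, Real.sqrt (h.eigenvalues i) = ∑ i, p.eval (h.eigenvalues i) :=
        Finset.sum_congr rfl fun i _ => (hp _ (Finset.mem_union_left _
          (Finset.mem_image_of_mem _ (Finset.mem_univ _)))).symm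
    _ = ∑ i, p.eval (ν i) := h1
    _ = ∑ i, Real.sqrt (ν i) :=
        Finset.sum_congr rfl fun i _ => (hp _ (Finset.mem_union_right _
          (Finset.mem_image_of_mem _ (Finset.mem_univ _))))

/-! ### continuity -/

lemma eig_le_trace {A : Matrix ι ι ℝ} (hA : A.PosSemidef) (i : ι) :
    hA.1.eigenvalues i ≤ trace A := by
  have h1 := tr_pow hA.1 1
  simp only [pow_one] at h1
  rw [h1]
  exact Finset.single_le_sum (f := fun i => hA.1.eigenvalues i)
    (fun j _ => hA.eigenvalues_nonneg j) (Finset.mem_univ i)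

lemma tsq_near {A : Matrix ι ι ℝ} (hA : A.PosSemidef) (c ε : ℝ) (hc : trace A ≤ c) (p : ℝ[X])
    (hp : ∀ x ∈ Set.Icc 0 c, |p.eval x - Real.sqrt x| < ε) :
    |tsq A - trace (aeval A p)| ≤ Fintype.card ι * ε := by
  rw [tsq_eq hA.1, tr_pol hA.1, ← Finset.sum_sub_distrib]
  refine (Finset.abs_sum_le_sum_abs _ _).trans ?_
  calc ∑ i, |Real.sqrt (hA.1.eigenvalues i) - p.eval (hA.1.eigenvalues i)|
      ≤ ∑ _i : ι, ε := by
        refine Finset.sum_le_sum fun i _ => ?_
        rw [abs_sub_comm]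
        exact (hp _ ⟨hA.eigenvalues_nonneg i, (eig_le_trace hA i).trans hc⟩).le
    _ = Fintype.card ι * ε := by simp

open scoped Matrix.Norms.Frobenius in
theorem t_TSC : S_TSC := by
  classical
  intro ι _ _ A₀ hA₀
  have hA₀' : A₀.PosSemidef := hA₀
  change Tendsto _ _ _
  rw [Metric.tendsto_nhds]
  intro ε hε
  set c : ℝ := trace A₀ + 1 with hc
  set n : ℝ := (Fintype.card ι : ℝ) with hn
  have hn0 : 0 ≤ n := by positivity
  obtain ⟨p, hp⟩ := exists_polynomial_near_of_continuousOn 0 c Real.sqrt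
    Real.continuous_sqrt.continuousOn (ε / (4 * (n + 1))) (by positivity)
  have hpc : Continuous fun A : Matrix ι ι ℝ => trace (aeval A p) := by
    have h1 : (fun A : Matrix ι ι ℝ => trace (aeval A p)) = fun A : Matrix ι ι ℝ =>
        ∑ j ∈ range (p.natDegree + 1), p.coeff j • trace (A ^ j) := by
      funext A
      rw [aeval_eq_sum_range, trace_sum]
      simp_rw [trace_smul]
    rw [h1]
    refine continuous_finsetSum _ fun j _ => ?_
    have h1' : Continuous fun A : Matrix ι ι ℝ => A ^ j := continuous_pow j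
    have h1'' : Continuous fun A : Matrix ι ι ℝ => trace (A ^ j) := Continuous.matrix_trace h1'
    exact h1''.const_smul (p.coeff j)
  have h2 : ∀ᶠ A in 𝓝[{A : Matrix ι ι ℝ | A.PosSemidef}] A₀, trace A < c := by
    have h3 : Continuous fun A : Matrix ι ι ℝ => trace A := Continuous.matrix_trace continuous_id
    exact (h3.continuousAt.eventually (Iio_mem_nhds (by rw [hc]; linarith))).filter_mono
      nhdsWithin_le_nhds
  have h4 : ∀ᶠ A in 𝓝[{A : Matrix ι ι ℝ | A.PosSemidef}] A₀,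
      |trace (aeval A p) - trace (aeval A₀ p)| < ε / 4 := by
    have h5 : Tendsto (fun A : Matrix ι ι ℝ => trace (aeval A p)) (𝓝 A₀)
      (𝓝 (trace (aeval A₀ p))) := hpc.continuousAt
    exact ((Metric.tendsto_nhds.1 h5) (ε / 4) (by positivity)).filter_mono nhdsWithin_le_nhds
  filter_upwards [h2, h4, self_mem_nhdsWithin] with A h5 h6 h7
  have h8 := tsq_near h7 c _ h5.le p hp
  have h9 := tsq_near hA₀' c _ (by rw [hc]; linarith) p hp
  have h10 : n * (ε / (4 * (n + 1))) ≤ ε / 4 := by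
    rw [mul_div_assoc', div_le_div_iff₀ (by positivity) (by positivity)]
    nlinarith
  rw [← hn] at h8 h9
  change |tsq A - tsq A₀| < ε
  have e1 := abs_le.1 (h8.trans h10)
  have e2 := abs_le.1 (h9.trans h10)
  have e3 := abs_lt.1 h6
  rw [abs_lt]
  constructor <;> linarith [e1.1, e1.2, e2.1, e2.2, e3.1, e3.2]

/-! ### comparison -/

/-- the approximation of `1 - sqrt (1 - z)` -/
noncomputable def P : ℕ → ℝ[X]
  | 0 => 0
  | n + 1 => C (1 / 2) * (X + P n * P n)

lemma P_succ (n : ℕ) : P (n + 1) = C (1 / 2) * (X + P n * P n) := rfl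

lemma P_coeff (n j : ℕ) : (P (n + 1)).coeff j =
    1 / 2 * ((if 1 = j then 1 else 0) +
      ∑ x ∈ Finset.HasAntidiagonal.antidiagonal j, (P n).coeff x.1 * (P n).coeff x.2) := by
  rw [P_succ, coeff_C_mul, coeff_add, coeff_X, coeff_mul]

lemma P_nonneg (n : ℕ) : ∀ j, 0 ≤ (P n).coeff j := by
  induction n with
  | zero => intro j; simp [P]
  | succ n ih =>
    intro j
    rw [P_coeff]
    have h1 : 0 ≤ ∑ x ∈ Finset.HasAntidiagonal.antidiagonal j, (P n).coeff x.1 * (P n).coeff x.2 :=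
      Finset.sum_nonneg fun x _ => mul_nonneg (ih _) (ih _)
    split_ifs <;> linarith

lemma P_mono (n : ℕ) : ∀ j, (P n).coeff j ≤ (P (n + 1)).coeff j := by
  induction n with
  | zero => intro j; simpa [P] using P_nonneg 1 j
  | succ n ih =>
    intro j
    rw [P_coeff (n + 1), P_coeff n]
    have h1 : ∑ x ∈ Finset.HasAntidiagonal.antidiagonal j, (P n).coeff x.1 * (P n).coeff x.2 ≤
        ∑ x ∈ Finset.HasAntidiagonal.antidiagonal j, (P (n + 1)).coeff x.1 * (P (n + 1)).coeff x.2 :=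
      Finset.sum_le_sum fun x _ => mul_le_mul (ih _) (ih _) (P_nonneg _ _) (P_nonneg _ _)
    linarith

lemma P_mono' {m n : ℕ} (h : m ≤ n) (j : ℕ) : (P m).coeff j ≤ (P n).coeff j :=
  monotone_nat_of_le_succ (f := fun n => (P n).coeff j) (fun n => P_mono n j) h

lemma P_pos (j : ℕ) : 0 < (P (j + 1)).coeff (j + 1) := by
  have h1 : 0 < (P 1).coeff 1 := by
    rw [P_coeff]
    have h2 : 0 ≤ ∑ x ∈ Finset.HasAntidiagonal.antidiagonal 1, (P 0).coeff x.1 * (P 0).coeff x.2 :=
      Finset.sum_nonneg fun x _ => mul_nonneg (P_nonneg _ _) (P_nonneg _ _)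
    rw [if_pos rfl]
    linarith
  induction j with
  | zero => exact h1
  | succ j ih =>
    rw [P_coeff]
    have h2 : (P (j + 1)).coeff 1 * (P (j + 1)).coeff (j + 1) ≤
        ∑ x ∈ Finset.HasAntidiagonal.antidiagonal (j + 1 + 1), (P (j + 1)).coeff x.1 * (P (j + 1)).coeff x.2 :=
      Finset.single_le_sum (f := fun x : ℕ × ℕ => (P (j + 1)).coeff x.1 * (P (j + 1)).coeff x.2)
        (a := (1, j + 1)) (fun x _ => mul_nonneg (P_nonneg _ _) (P_nonneg _ _)) (by
          rw [Finset.HasAntidiagonal.mem_antidiagonal]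
          change 1 + (j + 1) = j + 1 + 1
          omega)
    have h3 : 0 < (P (j + 1)).coeff 1 := h1.trans_le (P_mono' (by omega) 1)
    have h4 := mul_pos h3 ih
    split_ifs <;> linarith

lemma P_eval (n : ℕ) (z : ℝ) : (P (n + 1)).eval z = 1 / 2 * (z + (P n).eval z * (P n).eval z) := by
  rw [P_succ, eval_mul, eval_C, eval_add, eval_X, eval_mul]

lemma P_bd {z : ℝ} (h0 : 0 ≤ z) (h1 : z ≤ 1) (n : ℕ) :
    0 ≤ (P n).eval z ∧ (P n).eval z ≤ 1 - Real.sqrt (1 - z) := by
  have hs : Real.sqrt (1 - z) ^ 2 = 1 - z := Real.sq_sqrt (by linarith)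
  have hs0 := Real.sqrt_nonneg (1 - z)
  have hs1 : Real.sqrt (1 - z) ≤ 1 := by
    rw [Real.sqrt_le_iff]
    constructor <;> linarith
  induction n with
  | zero =>
    simp only [P, eval_zero, le_refl, true_and]
    linarith
  | succ n ih =>
    rw [P_eval]
    constructor
    · have := mul_nonneg ih.1 ih.1
      linarith
    · have h2 : (P n).eval z * (P n).eval z ≤ (1 - Real.sqrt (1 - z)) * (1 - Real.sqrt (1 - z)) :=
        mul_le_mul ih.2 ih.2 ih.1 (by linarith)
      nlinarith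

lemma P_lim {z : ℝ} (h0 : 0 ≤ z) (h1 : z ≤ 1) :
    Tendsto (fun n => (P n).eval z) atTop (𝓝 (1 - Real.sqrt (1 - z))) := by
  have hs : Real.sqrt (1 - z) ^ 2 = 1 - z := Real.sq_sqrt (by linarith)
  have hs0 := Real.sqrt_nonneg (1 - z)
  have hmono : Monotone fun n => (P n).eval z := by
    refine monotone_nat_of_le_succ fun n => ?_
    induction n with
    | zero => simpa [P] using (P_bd h0 h1 1).1
    | succ n ih =>
      have e1 := P_eval (n + 1) z
      have e2 := P_eval n z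
      have := mul_le_mul ih ih (P_bd h0 h1 n).1 (P_bd h0 h1 (n + 1)).1
      linarith
  have hbdd : BddAbove (Set.range fun n => (P n).eval z) := by
    refine ⟨1 - Real.sqrt (1 - z), ?_⟩
    rintro _ ⟨n, rfl⟩
    exact (P_bd h0 h1 n).2
  have hlim := tendsto_atTop_ciSup hmono hbdd
  set L : ℝ := ⨆ n, (P n).eval z with hL
  have h2 : Tendsto (fun n => (P (n + 1)).eval z) atTop (𝓝 L) :=
    hlim.comp (tendsto_add_atTop_nat 1)
  have h3 : Tendsto (fun n => (P (n + 1)).eval z) atTop (𝓝 (1 / 2 * (z + L * L))) := by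
    have h4 : (fun n => (P (n + 1)).eval z) =
        fun n => 1 / 2 * (z + (P n).eval z * (P n).eval z) := by
      funext n
      rw [P_eval]
    rw [h4]
    exact ((hlim.mul hlim).const_add z).const_mul (1 / 2)
  have h5 : L = 1 / 2 * (z + L * L) := tendsto_nhds_unique h2 h3
  have h6 : L ≤ 1 - Real.sqrt (1 - z) := le_of_tendsto' hlim fun n => (P_bd h0 h1 n).2
  have h7 : (1 - L) ^ 2 = Real.sqrt (1 - z) ^ 2 := by
    rw [hs]
    nlinarith
  have h8 : 1 - L = Real.sqrt (1 - z) := by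
    rw [sq_eq_sq₀ (by linarith) hs0] at h7
    exact h7
  have h9 : L = 1 - Real.sqrt (1 - z) := by linarith
  rw [h9] at hlim
  exact hlim

/-- the comparison for power sums -/
lemma cmp {z w : ι → ℝ} (hz0 : ∀ i, 0 ≤ z i) (hz1 : ∀ i, z i ≤ 1) (hw0 : ∀ i, 0 ≤ w i)
    (hw1 : ∀ i, w i ≤ 1) (h : ∀ k : ℕ, ∑ i, z i ^ k ≤ ∑ i, w i ^ k) (δ : ℝ)
    (hδ : ∀ᶠ n in atTop, δ ≤ ∑ i, (P n).eval (w i) - ∑ i, (P n).eval (z i)) :
    ∑ i, Real.sqrt (1 - w i) + δ ≤ ∑ i, Real.sqrt (1 - z i) := by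
  have h1 : Tendsto (fun n => ∑ i, (P n).eval (w i) - ∑ i, (P n).eval (z i)) atTop
      (𝓝 (∑ i, (1 - Real.sqrt (1 - w i)) - ∑ i, (1 - Real.sqrt (1 - z i)))) :=
    (tendsto_finsetSum _ fun i _ => P_lim (hw0 i) (hw1 i)).sub
      (tendsto_finsetSum _ fun i _ => P_lim (hz0 i) (hz1 i))
  have h2 := ge_of_tendsto h1 hδ
  rw [Finset.sum_sub_distrib, Finset.sum_sub_distrib] at h2
  linarith

lemma diff_eq (z w : ι → ℝ) (p : ℝ[X]) : ∑ i, p.eval (w i) - ∑ i, p.eval (z i) =
    ∑ j ∈ range (p.natDegree + 1), p.coeff j * (∑ i, w i ^ j - ∑ i, z i ^ j) := by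
  simp_rw [eval_eq_sum_range]
  rw [Finset.sum_comm, Finset.sum_comm (s := (univ : Finset ι)), ← Finset.sum_sub_distrib]
  refine Finset.sum_congr rfl fun j _ => ?_
  rw [← Finset.mul_sum, ← Finset.mul_sum]
  ring

theorem t_SQT : S_SQT := by
  classical
  intro ι _ _ A B c hc hA hB hcA hcB hk
  have hz : ∀ (A : Matrix ι ι ℝ) (hA : A.PosSemidef), (c • (1 : Matrix ι ι ℝ) - A).PosSemidef →
      ∃ z : ι → ℝ, (∀ i, 0 ≤ z i) ∧ (∀ i, z i ≤ 1) ∧
        (∀ k : ℕ, trace ((1 - (1 / c) • A) ^ k) = ∑ i, z i ^ k) ∧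
        tsq A = Real.sqrt c * ∑ i, Real.sqrt (1 - z i) := by
    intro A hA hcA
    refine ⟨fun i => 1 - hA.1.eigenvalues i / c, ?_, ?_, ?_, ?_⟩
    · intro i
      have h1 := eig_le hA.1 c hcA i
      have h2 : hA.1.eigenvalues i / c ≤ 1 := (div_le_one hc).2 h1
      linarith
    · intro i
      have h1 := div_nonneg (hA.eigenvalues_nonneg i) hc.le
      linarith
    · intro k
      have h1 := tr_pol hA.1 ((1 - C (1 / c) * X) ^ k)
      have h2 : aeval A ((1 - C (1 / c) * X) ^ k) = (1 - (1 / c) • A) ^ k := by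
        rw [map_pow, map_sub, map_one, map_mul, aeval_C, aeval_X, Algebra.algebraMap_eq_smul_one,
          smul_mul_assoc, one_mul]
      rw [h2] at h1
      rw [h1]
      refine Finset.sum_congr rfl fun i _ => ?_
      rw [eval_pow, eval_sub, eval_one, eval_mul, eval_C, eval_X]
      congr 1
      ring
    · rw [tsq_eq hA.1, Finset.mul_sum]
      refine Finset.sum_congr rfl fun i _ => ?_
      rw [← Real.sqrt_mul hc.le]
      congr 1
      field_simp
      ring
  obtain ⟨z, hz0, hz1, hz2, hz3⟩ := hz A hA hcA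
  obtain ⟨w, hw0, hw1, hw2, hw3⟩ := hz B hB hcB
  have hk' : ∀ k : ℕ, ∑ i, z i ^ k ≤ ∑ i, w i ^ k := by
    intro k
    rw [← hz2 k, ← hw2 k]
    exact hk k
  have hcs : 0 < Real.sqrt c := Real.sqrt_pos.2 hc
  rw [hz3, hw3]
  constructor
  · refine mul_le_mul_of_nonneg_left ?_ hcs.le
    have h1 := cmp hz0 hz1 hw0 hw1 hk' 0 (Eventually.of_forall fun n => by
      rw [diff_eq]
      exact Finset.sum_nonneg fun j _ => mul_nonneg (P_nonneg n j) (sub_nonneg.2 (hk' j)))
    linarith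
  · rintro ⟨k, hlt⟩
    rw [hz2 k, hw2 k] at hlt
    refine mul_lt_mul_of_pos_left ?_ hcs
    have hk0 : k ≠ 0 := by
      rintro rfl
      simp at hlt
    obtain ⟨m, rfl⟩ := Nat.exists_eq_succ_of_ne_zero hk0
    have hδ : 0 < (P (m + 1)).coeff (m + 1) * (∑ i, w i ^ (m + 1) - ∑ i, z i ^ (m + 1)) :=
      mul_pos (P_pos m) (sub_pos.2 hlt)
    have h1 := cmp hz0 hz1 hw0 hw1 hk' _ (by
      filter_upwards [eventually_ge_atTop (m + 1)] with n hn
      rw [diff_eq]
      have h2 : (P (m + 1)).coeff (m + 1) ≤ (P n).coeff (m + 1) := P_mono' hn _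
      have h3 : m + 1 ∈ range ((P n).natDegree + 1) := by
        rw [Finset.mem_range, Nat.lt_succ_iff]
        exact le_natDegree_of_ne_zero ((P_pos m).trans_le h2).ne'
      have h4 : (P n).coeff (m + 1) * (∑ i, w i ^ (m + 1) - ∑ i, z i ^ (m + 1)) ≤
          ∑ j ∈ range ((P n).natDegree + 1), (P n).coeff j * (∑ i, w i ^ j - ∑ i, z i ^ j) :=
        Finset.single_le_sum
          (f := fun j => (P n).coeff j * (∑ i, w i ^ j - ∑ i, z i ^ j))
          (fun j _ => mul_nonneg (P_nonneg n j) (sub_nonneg.2 (hk' j))) h3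
      exact (mul_le_mul_of_nonneg_right h2 (sub_pos.2 hlt).le).trans h4)
    linarith

end Pool.Agent.Q177.LU
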